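import Pool.Agent.Helper14.LE.Stmts

/-!
# MP_08fe4e_an, module W2: windows for the smooth domains (Dini)
-/

open MeasureTheory Set Filter Topology InnerProductSpace

noncomputable section

namespace LEP
namespace W2

/-! ### Monotonicity of the smooth profiles -/

lemma st_mono {s : ℝ} {n m : ℕ} (h : n ≤ m) :
    Real.smoothTransition ((n : ℝ) * s) ≤ Real.smoothTransition ((m : ℝ) * s) := by
  have hnm : (n : ℝ) ≤ (m : ℝ) := by exact_mod_cast h
  rcases le_total 0 s with hs | hs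
  · exact Real.smoothTransition.monotone (mul_le_mul_of_nonneg_right hnm hs)
  · have h1 : (n : ℝ) * s ≤ 0 := mul_nonpos_of_nonneg_of_nonpos (Nat.cast_nonneg n) hs
    rw [Real.smoothTransition.zero_of_nonpos h1]
    exact Real.smoothTransition.nonneg _

lemma Rn_mono {Rv : Fin 2 → ℝ} (hRv : ∀ i, 1 ≤ Rv i) {n m : ℕ} (h : n ≤ m) (t : ℝ) :
    Rn Rv n t ≤ Rn Rv m t := by
  unfold Rn
  have h0 : 0 ≤ Rv 0 - 1 := by linarith [hRv 0]
  have h1 : 0 ≤ Rv 1 - 1 := by linarith [hRv 1]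
  have k1 : (Rv 0 - 1) * Real.smoothTransition (n * (t - al 0)) *
      Real.smoothTransition (n * (be 0 - t)) ≤ (Rv 0 - 1) * Real.smoothTransition (m * (t - al 0)) *
      Real.smoothTransition (m * (be 0 - t)) :=
    mul_le_mul (mul_le_mul_of_nonneg_left (st_mono h) h0) (st_mono h)
      (Real.smoothTransition.nonneg _) (mul_nonneg h0 (Real.smoothTransition.nonneg _))
  have k2 : (Rv 1 - 1) * Real.smoothTransition (n * (t - al 1)) *
      Real.smoothTransition (n * (be 1 - t)) ≤ (Rv 1 - 1) * Real.smoothTransition (m * (t - al 1)) *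
      Real.smoothTransition (m * (be 1 - t)) :=
    mul_le_mul (mul_le_mul_of_nonneg_left (st_mono h) h1) (st_mono h)
      (Real.smoothTransition.nonneg _) (mul_nonneg h1 (Real.smoothTransition.nonneg _))
  linarith

/-! ### Compactness of windows -/

lemma isCompact_Win {a b : Fin 2 → ℝ} {η L : ℝ} {i : Fin 2} (ha : -Real.pi < a i)
    (hb : b i ≤ Real.pi) (hL : 0 < L) : IsCompact (Win a b η L i) := by
  have himg : Win a b η L i = (fun q : ℝ × ℝ => (q.1 : ℂ) * Complex.exp (q.2 * Complex.I)) ''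
      (Icc (L ^ (ee i - η)) (L ^ (ee i + η)) ×ˢ Icc (a i) (b i)) := by
    ext z
    constructor
    · rintro ⟨h1, h2, h3⟩
      exact ⟨(‖z‖, Complex.arg z), ⟨⟨h2, h3⟩, h1⟩, Complex.norm_mul_exp_arg_mul_I z⟩
    · rintro ⟨⟨r, t⟩, ⟨⟨h1, h2⟩, h3, h4⟩, rfl⟩
      have hr : 0 < r := lt_of_lt_of_le (Real.rpow_pos_of_pos hL _) h1
      have harg : Complex.arg ((r : ℂ) * Complex.exp (t * Complex.I)) = t := by
        rw [Complex.arg_real_mul _ hr]
        rw [Complex.arg_exp_mul_I]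
        exact (toIocMod_eq_self _).2 ⟨lt_of_lt_of_le ha h3, by
          have := le_trans h4 hb; linarith⟩
      have hn : ‖(r : ℂ) * Complex.exp (t * Complex.I)‖ = r := by
        rw [norm_mul, Complex.norm_exp_ofReal_mul_I, mul_one, Complex.norm_real, Real.norm_eq_abs,
          abs_of_pos hr]
      refine ⟨?_, ?_, ?_⟩
      · show Complex.arg ((r : ℂ) * Complex.exp (t * Complex.I)) ∈ Icc (a i) (b i)
        rw [harg]
        exact ⟨h3, h4⟩
      · show _ ≤ ‖(r : ℂ) * Complex.exp (t * Complex.I)‖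
        rw [hn]
        exact h1
      · show ‖(r : ℂ) * Complex.exp (t * Complex.I)‖ ≤ _
        rw [hn]
        exact h2
  rw [himg]
  exact (isCompact_Icc.prod isCompact_Icc).image (by fun_prop)

lemma angle_bounds {a b a' b' : Fin 2 → ℝ} (h : AngData a b a' b') (i : Fin 2) :
    -Real.pi < a i ∧ b i ≤ Real.pi := by
  have hpi := Real.pi_pos
  have h1 := h.h1 i
  have h5 := h.h5 i
  fin_cases i
  · simp only [al, be, th0, mm] at h1 h5
    simp at h1 h5 ⊢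
    constructor <;> linarith
  · simp only [al, be, th0, mm] at h1 h5
    simp at h1 h5 ⊢
    constructor <;> linarith

lemma Wi_sub_Wo {a b a' b' : Fin 2 → ℝ} (h : AngData a b a' b') {L : ℝ} (hL : 1 ≤ L) (i : Fin 2) :
    Wi a' b' L i ⊆ Wo a b L i := by
  rintro z ⟨⟨h1, h2⟩, h3, h4⟩
  refine ⟨⟨by linarith [h.h2 i], by linarith [h.h4 i]⟩, le_trans ?_ h3, le_trans h4 ?_⟩
  · exact Real.rpow_le_rpow_of_exponent_le hL (by linarith)
  · exact Real.rpow_le_rpow_of_exponent_le hL (by linarith)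

/-! ### Uniform convergence -/

lemma psi_pos {z : ℂ} (hz : z ∈ Qd) : 0 < psi z := by
  have h1 := hz.1
  have h2 := hz.2
  unfold psi
  have : z ≠ 0 := by
    intro h; rw [h] at h1; simp at h1
  exact div_pos (mul_pos h1 h2) (norm_pos_iff.2 this)

lemma continuousOn_psi : ContinuousOn psi Qd := by
  unfold psi
  intro z hz
  have h1 := hz.1
  have : z ≠ 0 := by
    intro h; rw [h] at h1; simp at h1
  have hc : ContinuousAt (fun z : ℂ => z.re * z.im / ‖z‖) z := by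
    apply ContinuousAt.div
    · exact (Complex.continuous_re.mul Complex.continuous_im).continuousAt
    · exact continuous_norm.continuousAt
    · exact norm_ne_zero_iff.2 this
  exact hc.continuousWithinAt

lemma continuousOn_Gt (hT2 : ST_T2) {R : ℝ → ℝ} (hR : Prof R) :
    ContinuousOn (fun q : ℂ × ℂ => Gt (Ddom R) q.1 q.2) (Ddom R ×ˢ Ddom R) := by
  unfold Gt
  have hsub : ∀ z ∈ Ddom R, z ∈ Qd := fun z hz => hz.2
  apply ContinuousOn.div
  · exact (hT2 R hR).2.2.2.2.2.2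
  · apply ContinuousOn.mul
    · exact continuousOn_psi.comp continuousOn_fst (fun q hq => hsub _ hq.1)
    · exact continuousOn_psi.comp continuousOn_snd (fun q hq => hsub _ hq.2)
  · intro q hq
    exact (mul_pos (psi_pos (hsub _ hq.1)) (psi_pos (hsub _ hq.2))).ne'

lemma unif (hTM : ST_TM) (hT2 : ST_T2) (hGEO : ST_GEO) {Rv : Fin 2 → ℝ} (hRv : ∀ i, 1 ≤ Rv i)
    {K : Set ℂ} (hK : IsCompact K) (hKD : K ⊆ Ddom (R0 Rv)) :
    TendstoUniformlyOn (fun (n : ℕ) (q : ℂ × ℂ) => Gt (Ddom (Rn Rv n)) q.1 q.2)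
      (fun q => Gt (Ddom (R0 Rv)) q.1 q.2) atTop (K ×ˢ K) := by
  obtain ⟨hP0, hPn, hle, hmono, hUn, -, -, hev⟩ := hGEO.2 Rv hRv
  obtain ⟨N, hN⟩ := eventually_atTop.1 (hev K hKD hK)
  have key : TendstoUniformlyOn (fun (n : ℕ) (q : ℂ × ℂ) => Gt (Ddom (Rn Rv (n + N))) q.1 q.2)
      (fun q => Gt (Ddom (R0 Rv)) q.1 q.2) atTop (K ×ˢ K) := by
    apply Monotone.tendstoUniformlyOn_of_forall_tendsto (hK.prod hK)
    · intro n
      refine (continuousOn_Gt hT2 (hPn (n + N))).mono ?_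
      exact Set.prod_mono (hN _ (Nat.le_add_left _ _)) (hN _ (Nat.le_add_left _ _))
    · intro q hq n m hnm
      have hq1 : q.1 ∈ Ddom (Rn Rv (n + N)) := hN _ (Nat.le_add_left _ _) hq.1
      have hq2 : q.2 ∈ Ddom (Rn Rv (n + N)) := hN _ (Nat.le_add_left _ _) hq.2
      have hp : 0 < psi q.1 * psi q.2 := mul_pos (psi_pos hq1.2) (psi_pos hq2.2)
      have := hTM.1 _ _ (hPn (n + N)) (hPn (m + N))
        (fun t => Rn_mono hRv (Nat.add_le_add_right hnm N) t) q.1 hq1 q.2 hq2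
      show Gam _ _ _ / _ ≤ Gam _ _ _ / _
      exact div_le_div_of_nonneg_right this hp.le
    · exact (continuousOn_Gt hT2 hP0).mono (Set.prod_mono hKD hKD)
    · intro q hq
      have := (hTM.2 Rv hRv q.1 (hKD hq.1) q.2 (hKD hq.2)).div_const (psi q.1 * psi q.2)
      exact this.comp (tendsto_add_atTop_nat N)
  intro u hu
  have h := key u hu
  obtain ⟨M, hM⟩ := eventually_atTop.1 h
  refine eventually_atTop.2 ⟨M + N, fun n hn q hq => ?_⟩
  have := hM (n - N) (by omega) q hq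
  have e : n - N + N = n := by omega
  simpa only [e] using this

/-- The determinant of the entries. -/
def det3 (p : ℝ × ℝ × ℝ) : ℝ := p.1 * p.2.1 - p.2.2 ^ 2

lemma continuous_det3 : Continuous det3 := by
  unfold det3
  fun_prop

def cE3 (p : ℝ × ℝ × ℝ) : ℝ := cE p.1 p.2.1 p.2.2

lemma continuousAt_cE3 {p : ℝ × ℝ × ℝ} (hp : 0 < det3 p) : ContinuousAt cE3 p := by
  unfold cE3 cE
  apply ContinuousAt.div
  · fun_prop
  · fun_prop
  · have : p.1 * p.2.1 - p.2.2 ^ 2 ≠ 0 := hp.ne'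
    exact mul_ne_zero two_ne_zero this

/-- The abstract compactness argument. -/
lemma abstract {X : Type*} {S : Set X} {F : ℕ → X → ℝ × ℝ × ℝ} {f : X → ℝ × ℝ × ℝ}
    (hS : IsCompact (f '' S)) (hdet : ∀ x ∈ S, 0 < det3 (f x))
    (hF : TendstoUniformlyOn F f atTop S) {η : ℝ} (hη : 0 < η) :
    ∀ᶠ n in atTop, ∀ x ∈ S, 0 < det3 (F n x) ∧ |cE3 (F n x) - cE3 (f x)| < η := by
  have hU : IsOpen {p : ℝ × ℝ × ℝ | 0 < det3 p} := isOpen_lt continuous_const continuous_det3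
  have hsub : f '' S ⊆ {p : ℝ × ℝ × ℝ | 0 < det3 p} := by
    rintro _ ⟨x, hx, rfl⟩
    exact hdet x hx
  obtain ⟨δ, hδ, hthick⟩ := hS.exists_thickening_subset_open hU hsub
  have h1 : {x : (ℝ × ℝ × ℝ) × (ℝ × ℝ × ℝ) | x.1 ∈ f '' S →
      (cE3 x.1, cE3 x.2) ∈ {q : ℝ × ℝ | dist q.1 q.2 < η}} ∈ uniformity (ℝ × ℝ × ℝ) :=
    hS.uniformContinuousAt_of_continuousAt cE3 (fun p hp => continuousAt_cE3 (hsub hp))
      (Metric.dist_mem_uniformity hη)
  have h2 : {x : (ℝ × ℝ × ℝ) × (ℝ × ℝ × ℝ) | dist x.1 x.2 < δ} ∈ uniformity (ℝ × ℝ × ℝ) :=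
    Metric.dist_mem_uniformity hδ
  filter_upwards [hF _ h1, hF _ h2] with n hn1 hn2 x hx
  refine ⟨?_, ?_⟩
  · apply hthick
    rw [Metric.mem_thickening_iff]
    refine ⟨f x, mem_image_of_mem _ hx, ?_⟩
    rw [dist_comm]
    exact hn2 x hx
  · have := hn1 x hx (mem_image_of_mem _ hx)
    have h3 : dist (cE3 (f x)) (cE3 (F n x)) < η := this
    rw [dist_comm, Real.dist_eq] at h3
    exact h3

theorem st_W2 (hW1 : ST_W1) (hTM : ST_TM) (hT2 : ST_T2) (hGEO : ST_GEO) : ST_W2 := by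
  intro a b a' b' hang ε hε
  filter_upwards [hW1 a b a' b' hang (ε / 2) (by linarith), eventually_ge_atTop (1 : ℝ)]
    with L hL hL1
  obtain ⟨hsub, hgap, x1, hx1, x2, hx2, hc, δ, hδ, hout⟩ := hL
  have hRv : ∀ i, 1 ≤ RL L i := by
    intro i
    fin_cases i
    · exact Real.one_le_rpow hL1 (by norm_num)
    · exact Real.one_le_rpow hL1 (by norm_num)
  have hcomp : ∀ i, IsCompact (Wo a b L i) := fun i =>
    isCompact_Win (angle_bounds hang i).1 (angle_bounds hang i).2 (by linarith)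
  obtain ⟨hP0, hPn, hle, hmono, hUn, -, -, hev⟩ := hGEO.2 (RL L) hRv
  have hK : IsCompact (Wo a b L 0 ∪ Wo a b L 1) := (hcomp 0).union (hcomp 1)
  have hKD : Wo a b L 0 ∪ Wo a b L 1 ⊆ Ddom (R0 (RL L)) := union_subset (hsub 0) (hsub 1)
  have hun := unif hTM hT2 hGEO hRv hK hKD
  set K := Wo a b L 0 ∪ Wo a b L 1 with hKdef
  set S : Set (ℂ × ℂ) := Wo a b L 0 ×ˢ Wo a b L 1 with hSdef
  have hSc : IsCompact S := (hcomp 0).prod (hcomp 1)
  -- the limit functions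
  let f : ℂ × ℂ → ℝ × ℝ × ℝ := fun q => (Gt (Ddom (R0 (RL L))) q.1 q.1,
    Gt (Ddom (R0 (RL L))) q.2 q.2, Gt (Ddom (R0 (RL L))) q.1 q.2)
  let F : ℕ → ℂ × ℂ → ℝ × ℝ × ℝ := fun n q => (Gt (Ddom (Rn (RL L) n)) q.1 q.1,
    Gt (Ddom (Rn (RL L) n)) q.2 q.2, Gt (Ddom (Rn (RL L) n)) q.1 q.2)
  have hFf : TendstoUniformlyOn F f atTop S := by
    have e1 : TendstoUniformlyOn (fun (n : ℕ) (q : ℂ × ℂ) => Gt (Ddom (Rn (RL L) n)) q.1 q.1)
        (fun q => Gt (Ddom (R0 (RL L))) q.1 q.1) atTop S :=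
      (hun.comp (fun q : ℂ × ℂ => (q.1, q.1))).mono
        (fun q hq => ⟨Or.inl hq.1, Or.inl hq.1⟩)
    have e2 : TendstoUniformlyOn (fun (n : ℕ) (q : ℂ × ℂ) => Gt (Ddom (Rn (RL L) n)) q.2 q.2)
        (fun q => Gt (Ddom (R0 (RL L))) q.2 q.2) atTop S :=
      (hun.comp (fun q : ℂ × ℂ => (q.2, q.2))).mono
        (fun q hq => ⟨Or.inr hq.2, Or.inr hq.2⟩)
    have e3 : TendstoUniformlyOn (fun (n : ℕ) (q : ℂ × ℂ) => Gt (Ddom (Rn (RL L) n)) q.1 q.2)
        (fun q => Gt (Ddom (R0 (RL L))) q.1 q.2) atTop S :=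
      hun.mono (fun q hq => ⟨Or.inl hq.1, Or.inr hq.2⟩)
    rw [Metric.tendstoUniformlyOn_iff] at e1 e2 e3 ⊢
    intro η hη
    filter_upwards [e1 η hη, e2 η hη, e3 η hη] with n h1 h2 h3 q hq
    simp only [F, f, Prod.dist_eq]
    exact max_lt (h1 q hq) (max_lt (h2 q hq) (h3 q hq))
  have hfc : ContinuousOn f S := by
    have hc0 := continuousOn_Gt hT2 hP0
    apply ContinuousOn.prodMk
    · exact hc0.comp (f := fun q : ℂ × ℂ => (q.1, q.1)) (by fun_prop)
        (fun q hq => ⟨hsub 0 hq.1, hsub 0 hq.1⟩)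
    · apply ContinuousOn.prodMk
      · exact hc0.comp (f := fun q : ℂ × ℂ => (q.2, q.2)) (by fun_prop)
          (fun q hq => ⟨hsub 1 hq.2, hsub 1 hq.2⟩)
      · exact hc0.mono (fun q hq => ⟨hsub 0 hq.1, hsub 1 hq.2⟩)
  have hfS : IsCompact (f '' S) := hSc.image_of_continuousOn hfc
  have hdet : ∀ q ∈ S, 0 < det3 (f q) := by
    intro q hq
    have := hgap q.1 hq.1 q.2 hq.2
    show 0 < Gt _ _ _ * Gt _ _ _ - _ ^ 2
    linarith
  have hη : 0 < min (ε / 2) (δ / 2) := lt_min (by linarith) (by linarith)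
  have hfin := abstract hfS hdet hFf hη
  have hWin0 := Wi_sub_Wo hang hL1 0
  have hWin1 := Wi_sub_Wo hang hL1 1
  filter_upwards [hfin, hev K hKD hK] with n hn hnK
  refine ⟨?_, ?_, x1, hx1, x2, hx2, ?_, ?_⟩
  · intro i
    fin_cases i
    · exact fun z hz => hnK (Or.inl hz)
    · exact fun z hz => hnK (Or.inr hz)
  · intro y1 hy1 y2 hy2
    have := (hn (y1, y2) ⟨hy1, hy2⟩).1
    have h2 : 0 < Gt (Ddom (Rn (RL L) n)) y1 y1 * Gt (Ddom (Rn (RL L) n)) y2 y2 -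
      Gt (Ddom (Rn (RL L) n)) y1 y2 ^ 2 := this
    linarith
  · have := (hn (x1, x2) ⟨hWin0 hx1, hWin1 hx2⟩).2
    have h2 : |cD (Ddom (Rn (RL L) n)) x1 x2 - cD (Ddom (R0 (RL L))) x1 x2| <
      min (ε / 2) (δ / 2) := this
    have h3 := (abs_lt.1 h2).2
    have h4 := min_le_left (ε / 2) (δ / 2)
    linarith
  · intro y1 hy1 y2 hy2 hor
    have hx := (hn (x1, x2) ⟨hWin0 hx1, hWin1 hx2⟩).2
    have hy := (hn (y1, y2) ⟨hy1, hy2⟩).2
    have h2 : |cD (Ddom (Rn (RL L) n)) x1 x2 - cD (Ddom (R0 (RL L))) x1 x2| <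
      min (ε / 2) (δ / 2) := hx
    have h2' : |cD (Ddom (Rn (RL L) n)) y1 y2 - cD (Ddom (R0 (RL L))) y1 y2| <
      min (ε / 2) (δ / 2) := hy
    have h3 := (abs_lt.1 h2).2
    have h3' := (abs_lt.1 h2').1
    have h4 := min_le_right (ε / 2) (δ / 2)
    have h5 := hout y1 hy1 y2 hy2 hor
    linarith

end W2
end LEP
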